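import Pool.Agent.TH54.BU.Iter
import Pool.Agent.TH54.BU.Inf

/-!
# Classes of the free Burnside monoid `x = x ^ (1 + p)`

In a monoid generated by two elements `a, b` in which `x ^ (p + 1) = x` for all `x` the
set `e M e`, `e = (a b) ^ p`, is a group of exponent `p`.  If the two generated free Burnside group
of exponent `p` is infinite, then the class of the word `(a b) ^ p` is not regular.
-/

set_option autoImplicit false

namespace Pool.Agent.N53.BM

section mon

variable {M : Type*} [Monoid M] {p : ℕ}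

/-- `a` lies in the ideal generated by `b` -/
def JJ (a b : M) : Prop := ∃ s t : M, a = s * b * t

theorem JJ.mul (hp : 1 ≤ p) (h : ∀ x : M, x ^ (p + 1) = x) {a x y : M} (h1 : JJ a x)
    (h2 : JJ a y) : JJ a (x * y) := by
  obtain ⟨s, t, hs⟩ := h1
  obtain ⟨u, v, hu⟩ := h2
  obtain ⟨k, rfl⟩ : ∃ k, p = k + 1 := ⟨p - 1, by omega⟩
  -- a = s x z y v
  have e1 : a = s * (x * (t * a ^ k * u) * y) * v := by
    calc a = a ^ (k + 1 + 1) := (h a).symm
      _ = a * a ^ k * a := by rw [pow_succ, pow_succ']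
      _ = (s * x * t) * a ^ k * (u * y * v) := by rw [← hs, ← hu]
      _ = _ := by simp only [mul_assoc]
  set z := t * a ^ k * u with hz
  have e2 : x * z * y = (x * z * y) ^ k * (x * z * (y * x) * z * y) := by
    calc x * z * y = (x * z * y) ^ (k + 1 + 1) := (h _).symm
      _ = (x * z * y) ^ k * ((x * z * y) * (x * z * y)) := by
          rw [pow_succ, pow_succ, mul_assoc]
      _ = _ := by simp only [mul_assoc]
  have e3 : y * x = y * ((x * y) ^ k * (x * y)) * x := by
    have : ∀ n : ℕ, (y * x) ^ (n + 1) = y * (x * y) ^ n * x := by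
      intro n
      induction n with
      | zero => simp
      | succ n ih =>
        rw [pow_succ, ih, pow_succ (x * y)]
        simp only [mul_assoc]
    calc y * x = (y * x) ^ (k + 1 + 1) := (h _).symm
      _ = y * (x * y) ^ (k + 1) * x := this _
      _ = _ := by rw [pow_succ]
  refine ⟨s * (x * z * y) ^ k * x * z * y * (x * y) ^ k, x * z * y * v, ?_⟩
  calc a = s * (x * z * y) * v := e1
    _ = s * ((x * z * y) ^ k * (x * z * (y * x) * z * y)) * v := by rw [← e2]
    _ = s * ((x * z * y) ^ k * (x * z * (y * ((x * y) ^ k * (x * y)) * x) * z * y)) * v := by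
        rw [← e3]
    _ = _ := by simp only [mul_assoc]

/-- the local monoid at an idempotent below everything is a group of exponent `p` -/
theorem local_group (hp : 1 ≤ p) (h : ∀ x : M, x ^ (p + 1) = x) {e : M} (he : e * e = e)
    (hJ : ∀ x : M, JJ e x) (x : M) : (e * x * e) ^ p = e := by
  obtain ⟨k, rfl⟩ : ∃ k, p = k + 1 := ⟨p - 1, by omega⟩
  set g := e * x * e with hg
  have ge : g * e = g := by rw [hg, mul_assoc, he]
  have eg : e * g = g := by rw [hg, ← mul_assoc, ← mul_assoc, he]
  set g0 := g ^ (k + 1) with hg0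
  have g0i : g0 * g0 = g0 := by
    rw [hg0]
    calc g ^ (k + 1) * g ^ (k + 1) = g ^ k * g ^ (k + 1 + 1) := by
          rw [← pow_add, ← pow_add]; congr 1; omega
      _ = g ^ k * g := by rw [h]
      _ = g ^ (k + 1) := (pow_succ _ _).symm
  have g0e : g0 * e = g0 := by rw [hg0, pow_succ, mul_assoc, ge]
  have eg0 : e * g0 = g0 := by rw [hg0, pow_succ', ← mul_assoc, eg]
  obtain ⟨s, t, hst⟩ := hJ g0
  set s1 := e * s * g0 with hs1
  set t1 := g0 * t * e with ht1
  have st : s1 * t1 = e := by
    calc s1 * t1 = e * s * (g0 * g0) * t * e := by rw [hs1, ht1]; simp only [mul_assoc]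
      _ = e * (s * g0 * t) * e := by rw [g0i]; simp only [mul_assoc]
      _ = e * e * e := by rw [← hst]
      _ = e := by rw [he, he]
  have s1e : s1 * e = s1 := by rw [hs1, mul_assoc, g0e]
  have s1p : s1 ^ (k + 1) = e := by
    calc s1 ^ (k + 1) = s1 ^ (k + 1) * e := by rw [pow_succ, mul_assoc, s1e]
      _ = s1 ^ (k + 1) * (s1 * t1) := by rw [st]
      _ = s1 ^ (k + 1 + 1) * t1 := by rw [pow_succ s1 (k + 1)]; simp only [mul_assoc]
      _ = s1 * t1 := by rw [h]
      _ = e := st
  have eg0' : e * g0 = e := by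
    calc e * g0 = s1 ^ (k + 1) * g0 := by rw [s1p]
      _ = s1 ^ k * (e * s * (g0 * g0)) := by rw [pow_succ, hs1]; simp only [mul_assoc]
      _ = s1 ^ k * s1 := by rw [g0i, ← hs1]
      _ = e := by rw [← pow_succ, s1p]
  rw [← eg0, eg0']

theorem idem_of (hp : 1 ≤ p) (h : ∀ x : M, x ^ (p + 1) = x) (x : M) :
    x ^ p * x ^ p = x ^ p := by
  obtain ⟨k, rfl⟩ : ∃ k, p = k + 1 := ⟨p - 1, by omega⟩
  calc x ^ (k + 1) * x ^ (k + 1) = x ^ k * x ^ (k + 1 + 1) := by
        rw [← pow_add, ← pow_add]; congr 1; omega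
    _ = x ^ k * x := by rw [h]
    _ = x ^ (k + 1) := (pow_succ _ _).symm

end mon

open TH54.BU in
/-- the class of `(a b) ^ p` under `x ~ x ^ (1 + p)` is not regular when the two generated free
Burnside group of exponent `p` is infinite -/
theorem main {p : ℕ} (hp1 : 1 ≤ p)
    (hB : Infinite (FreeGroup (Fin 2) ⧸ powSub (FreeGroup (Fin 2)) p))
    (σ : Type) [Fintype σ] (D : DFA (Fin 2) σ)
    (hD : D.accepts = {v : List (Fin 2) |
      conGen (fun a b : FreeMonoid (Fin 2) => ∃ x : FreeMonoid (Fin 2), a = x ^ 1 ∧ b = x ^ (1 + p))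
        (FreeMonoid.ofList v)
        ((FreeMonoid.of (0 : Fin 2) * FreeMonoid.of (1 : Fin 2)) ^ p)}) : False := by
  classical
  set c := conGen (fun a b : FreeMonoid (Fin 2) =>
    ∃ x : FreeMonoid (Fin 2), a = x ^ 1 ∧ b = x ^ (1 + p)) with hc
  set w : FreeMonoid (Fin 2) := (FreeMonoid.of (0 : Fin 2) * FreeMonoid.of (1 : Fin 2)) ^ p with hw
  let Q := c.Quotient
  let q : FreeMonoid (Fin 2) →* Q := c.mk'
  have hq : Function.Surjective q := Con.mk'_surjective
  have hQ : ∀ x : Q, x ^ (p + 1) = x := by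
    intro x
    obtain ⟨y, rfl⟩ := hq x
    rw [← map_pow]
    refine ((Con.eq c).2 ?_).symm
    refine ConGen.Rel.of _ _ ⟨y, (pow_one y).symm, ?_⟩
    rw [add_comm]
  set B := FreeGroup (Fin 2) ⧸ powSub (FreeGroup (Fin 2)) p with hBdef
  have hBp : ∀ x : B, x ^ p = 1 := by
    intro x
    obtain ⟨y, rfl⟩ := QuotientGroup.mk_surjective x
    rw [← QuotientGroup.mk_pow]
    exact (QuotientGroup.eq_one_iff _).2 (Subgroup.subset_normalClosure ⟨y, rfl⟩)
  let ψ : FreeMonoid (Fin 2) →* B :=
    FreeMonoid.lift (fun i => ((FreeGroup.of i : FreeGroup (Fin 2)) : B))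
  have hψc : c ≤ Con.ker ψ := by
    rw [hc]
    refine Con.conGen_le.2 ?_
    rintro _ _ ⟨x, rfl, rfl⟩
    show ψ _ = ψ _
    rw [map_pow, pow_add, hBp, mul_one, pow_one]
  let ψ' : Q →* B := Con.lift c ψ hψc
  have hψ' : ∀ x, ψ' (q x) = ψ x := fun x => rfl
  have hsurj : Function.Surjective ψ := by
    have h1 : ∀ x : FreeGroup (Fin 2), (x : B) ∈ MonoidHom.mrange ψ := by
      intro x
      have hgen : ∀ i : Fin 2, ((FreeGroup.of i : FreeGroup (Fin 2)) : B) ∈ MonoidHom.mrange ψ :=
        fun i => ⟨FreeMonoid.of i, by simp [ψ]⟩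
      induction x using FreeGroup.induction_on with
      | C1 => exact Submonoid.one_mem _
      | of i => exact hgen i
      | inv_of i _ =>
        have : ((FreeGroup.of i : FreeGroup (Fin 2))⁻¹ : FreeGroup (Fin 2)) =
          ((FreeGroup.of i : FreeGroup (Fin 2)))⁻¹ := rfl
        have h2 : (((FreeGroup.of i : FreeGroup (Fin 2))⁻¹ : FreeGroup (Fin 2)) : B) =
            ((FreeGroup.of i : FreeGroup (Fin 2)) : B) ^ (p - 1) := by
          rw [QuotientGroup.mk_inv]
          refine inv_eq_of_mul_eq_one_right ?_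
          rw [← pow_succ', Nat.sub_add_cancel hp1, hBp]
        rw [h2]
        exact Submonoid.pow_mem _ (hgen i) _
      | mul x y hx hy =>
        rw [QuotientGroup.mk_mul]
        exact Submonoid.mul_mem _ hx hy
    intro b
    obtain ⟨y, rfl⟩ := QuotientGroup.mk_surjective b
    exact h1 y
  -- the idempotent
  set e : Q := q w with he
  have hep : e = (q (FreeMonoid.of 0) * q (FreeMonoid.of 1)) ^ p := by
    rw [he, hw, map_pow, map_mul]
  have hee : e * e = e := by
    rw [hep]
    exact idem_of hp1 hQ _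
  have hJ : ∀ x : Q, JJ e x := by
    intro x
    obtain ⟨y, rfl⟩ := hq x
    induction y using FreeMonoid.recOn with
    | one => exact ⟨e, 1, by simp⟩
    | of_mul i y ih =>
      rw [map_mul]
      refine JJ.mul hp1 hQ ?_ ih
      obtain ⟨k, hk⟩ : ∃ k, p = k + 1 := ⟨p - 1, by omega⟩
      fin_cases i
      · refine ⟨1, q (FreeMonoid.of 1) * (q (FreeMonoid.of 0) * q (FreeMonoid.of 1)) ^ k, ?_⟩
        rw [hep, hk, pow_succ', one_mul]
        simp only [mul_assoc]
        rfl
      · refine ⟨(q (FreeMonoid.of 0) * q (FreeMonoid.of 1)) ^ k * q (FreeMonoid.of 0), 1, ?_⟩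
        rw [hep, hk, pow_succ, mul_one]
        simp only [mul_assoc]
        rfl
  have hloc : ∀ x : Q, (e * x * e) ^ p = e := local_group hp1 hQ hee hJ
  -- words for the elements of `B` and their transformations
  choose v hv using hsurj
  have hfin : Finite (σ → σ) := inferInstance
  obtain ⟨g, h, hgh, hT⟩ := Finite.exists_ne_map_eq_of_infinite
    (fun b : B => (fun s : σ => D.evalFrom s (FreeMonoid.toList (v b)) : σ → σ))
  -- contexts
  have hmem : ∀ u : FreeMonoid (Fin 2), FreeMonoid.toList u ∈ D.accepts ↔ q u = e := by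
    intro u
    rw [hD]
    show c _ w ↔ _
    rw [he]
    exact (Con.eq c).symm
  have hctx : ∀ s t : FreeMonoid (Fin 2), q (s * v g * t) = e → q (s * v h * t) = e := by
    intro s t hs
    rw [← hmem] at hs ⊢
    rw [DFA.mem_accepts] at hs ⊢
    have e1 : ∀ b : B, D.eval (FreeMonoid.toList (s * v b * t)) =
        D.evalFrom (D.evalFrom (D.eval (FreeMonoid.toList s)) (FreeMonoid.toList (v b)))
          (FreeMonoid.toList t) := by
      intro b
      rw [FreeMonoid.toList_mul, FreeMonoid.toList_mul, DFA.eval, DFA.evalFrom_of_append,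
        DFA.evalFrom_of_append]
    rw [e1] at hs ⊢
    have := congrFun hT (D.eval (FreeMonoid.toList s))
    rw [← this]
    exact hs
  have h1 : q (w * v g * (w * (w * v g * w) ^ (p - 1))) = e := by
    have : w * v g * (w * (w * v g * w) ^ (p - 1)) = (w * v g * w) * (w * v g * w) ^ (p - 1) := by
      simp only [mul_assoc]
    rw [this, ← pow_succ', Nat.sub_add_cancel hp1, map_pow, map_mul, map_mul]
    exact hloc _
  have h2 := hctx _ _ h1
  have h3 := congrArg ψ' h1
  have h4 := congrArg ψ' h2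
  rw [hψ', he, hψ'] at h3 h4
  have h5 : ψ w = 1 := by rw [hw, map_pow, hBp]
  rw [map_mul, map_mul, hv, h5] at h3 h4
  have h6 : g = h := by
    have := h3.trans h4.symm
    simpa using this
  exact hgh h6

end Pool.Agent.N53.BM
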